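import Pool.Agent.MP_cd0eb5_co.LB.Mom

set_option autoImplicit false

namespace Pool.Agent.MP_cd0eb5_co.LB

open Finset Equiv Filter
open scoped ENNReal NNReal

lemma avg_ge (B : Set AnyPerm) {k m : ℕ} {r : ℝ} (hk : 2 ≤ k) (hr : 0 < r) (hm : (k:ℝ) ≤ r * m)
    (ha : 0 < (cl B k).card)
    (hrec : ∀ j ≤ k, ((cl B j).card : ℝ) / r ^ j ≤ (cl B k).card / r ^ k) :
    5 / 12 * k * ((k:ℝ) ^ m) ^ k ≤ ∑ y : Fin k → Fin m → Fin k, (best B y : ℝ) := by
  classical
  have : Nonempty (Fin k) := ⟨⟨0, by omega⟩⟩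
  have k0 : (0:ℝ) < k := by exact_mod_cast (show 0 < k by omega)
  have N0 : (0:ℝ) < ((k:ℝ) ^ m) ^ k := by positivity
  have l2 := Real.log_pos (show (1:ℝ) < 2 by norm_num)
  have h1 := many B hk hr hm ha hrec
  have h2 := mcd (Ω := Fin m → Fin k) k (fun y => (best B y : ℝ)) fun y r ω => by
    exact_mod_cast best_lip B y r ω
  simp only [Fintype.card_fun, Fintype.card_fin, Nat.cast_pow] at h2
  have h3 := card_nsmul_le_sum (univ.filter fun y : Fin k → Fin m → Fin k => k ≤ best B y)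
    (fun y => Real.exp (4 * Real.log 2 * best B y)) (Real.exp (4 * Real.log 2 * k)) fun y hy =>
      Real.exp_le_exp.2 (mul_le_mul_of_nonneg_left (by exact_mod_cast (mem_filter.1 hy).2)
        (by positivity))
  have h4 := (h3.trans (sum_le_sum_of_subset_of_nonneg (subset_univ _)
    fun _ _ _ => (Real.exp_pos _).le)).trans h2
  rw [nsmul_eq_mul, mul_pow] at h4
  have h5 := mul_le_mul_of_nonneg_right h1 (Real.exp_pos (4 * Real.log 2 * k)).le
  have h6 := mul_le_mul_of_nonneg_right h4 (show (0:ℝ) ≤ 2 ^ k by positivity)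
  have e5 : (5 / 2 : ℝ) ^ k * 2 ^ k = Real.exp (k * Real.log 5) := by
    rw [← mul_pow, Real.exp_nat_mul, Real.exp_log (by norm_num)]
    norm_num
  have h7 : Real.exp (4 * Real.log 2 * k) ≤ Real.exp (k * Real.log 5 + 4 * Real.log 2
      * ((∑ y : Fin k → Fin m → Fin k, (best B y : ℝ)) / ((k:ℝ) ^ m) ^ k)) := by
    rw [Real.exp_add, ← e5]
    refine le_of_mul_le_mul_left ?_ N0
    linarith
  have h8 := Real.exp_le_exp.1 h7
  have l5 : 3 * Real.log 5 ≤ 7 * Real.log 2 := by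
    have := Real.log_le_log (show (0:ℝ) < 5 ^ 3 by norm_num) (show (5:ℝ) ^ 3 ≤ 2 ^ 7 by norm_num)
    simpa only [Real.log_pow, Nat.cast_ofNat] using this
  have h9 := mul_le_mul_of_nonneg_left l5 k0.le
  rw [← le_div_iff₀ N0]
  refine le_of_mul_le_mul_left ?_ (show 0 < 4 * Real.log 2 by positivity)
  linarith

lemma mean_ge (B : Set AnyPerm) {k m : ℕ} {r : ℝ} (hk : 2 ≤ k) (hr : 0 < r) (hm : (k:ℝ) ≤ r * m)
    (ha : 0 < (cl B k).card)
    (hrec : ∀ j ≤ k, ((cl B j).card : ℝ) / r ^ j ≤ (cl B k).card / r ^ k) :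
    5 / 12 * k ≤ meanLongestSubseq (Av B) (k * m) := by
  have k0 : (0:ℝ) < k := by exact_mod_cast (show 0 < k by omega)
  have f0 : (0:ℝ) < (k * m).factorial := by exact_mod_cast Nat.factorial_pos _
  have h1 := mul_le_mul_of_nonneg_left (avg_ge B hk hr hm ha hrec) f0.le
  have h2 : ((k * m).factorial : ℝ) * ∑ y : Fin k → Fin m → Fin k, (best B y : ℝ)
      ≤ (k:ℝ) ^ (k * m) * ∑ π : Perm (Fin (k * m)), (longestSubseq (Av B) π : ℝ) := by
    exact_mod_cast sum_best_le B k m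
  rw [← pow_mul, mul_comm m k] at h1
  rw [meanLongestSubseq, le_div_iff₀ f0]
  refine le_of_mul_le_mul_left ?_ (show 0 < (k:ℝ) ^ (k * m) by positivity)
  linarith

lemma record_exists (b : ℕ → ℝ) (hb : ∀ j, 0 ≤ b j) (h : ∀ M, ∃ k, M < b k) (k₀ : ℕ) :
    ∃ k, k₀ ≤ k ∧ 0 < b k ∧ ∀ j ≤ k, b j ≤ b k := by
  obtain ⟨k₁, h1⟩ := h (∑ j ∈ range k₀, b j)
  obtain ⟨k, hk, h2⟩ := exists_max_image (range (k₁ + 1)) b ⟨0, by simp⟩
  have h3 := h1.trans_le (h2 k₁ (by simp))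
  refine ⟨k, not_lt.1 fun h4 => ?_, (sum_nonneg fun j _ => hb j).trans_lt h3, fun j hj =>
    h2 j (mem_range.2 (hj.trans_lt (mem_range.1 hk)))⟩
  exact h3.not_ge (single_le_sum (fun j _ => hb j) (mem_range.2 h4))

lemma unbounded (B : Set AnyPerm) {r : ℝ≥0} (hr : 0 < r) (h : (r : ℝ≥0∞) < sConst (Av B))
    (M : ℝ) : ∃ k, M < ((cl B k).card : ℝ) / (r:ℝ) ^ k := by
  obtain ⟨s, h1, h2⟩ := ENNReal.lt_iff_exists_nnreal_btwn.1 h
  have r0 : (0:ℝ) < r := hr
  have h3 : (r:ℝ) < s := by exact_mod_cast h1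
  have h4 := (tendsto_pow_atTop_atTop_of_one_lt ((one_lt_div r0).2 h3)).eventually_gt_atTop M
  obtain ⟨k, h5, h6, h7⟩ := ((frequently_lt_of_lt_limsup (by isBoundedDefault) h2).and_eventually
    (h4.and (eventually_gt_atTop 0))).exists
  rw [one_div, ENNReal.lt_rpow_inv_iff (by exact_mod_cast h7), ENNReal.rpow_natCast,
    count_eq] at h5
  have h8 : (s:ℝ) ^ k < (cl B k).card := by exact_mod_cast h5
  rw [div_pow] at h6
  exact ⟨k, h6.trans (div_lt_div_of_pos_right h8 (by positivity))⟩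

theorem main (B : Set AnyPerm) : sConst (Av B) ≤ 24 * cConst (Av B) := by
  refine ENNReal.le_of_forall_nnreal_lt fun r h => ?_
  rcases eq_or_lt_of_le (zero_le (a := r)) with rfl | hr
  · simp
  have r0 : (0:ℝ) < r := hr
  have h1 : ∃ᶠ n : ℕ in atTop, ENNReal.ofReal √(r / 6)
      ≤ ENNReal.ofReal (meanLongestSubseq (Av B) n / √(n : ℝ)) := by
    refine frequently_atTop.2 fun n₀ => ?_
    obtain ⟨k, hk, ha, hrec⟩ := record_exists (fun k => ((cl B k).card : ℝ) / (r:ℝ) ^ k)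
      (fun _ => by positivity) (unbounded B hr h) (n₀ + 2 + ⌈24 * (r:ℝ)⌉₊)
    have k0 : (0:ℝ) < k := by exact_mod_cast (show 0 < k by omega)
    have k1 : 24 * (r:ℝ) ≤ k := Nat.ceil_le.1 (by omega)
    have m0 : 0 < ⌈(k:ℝ) / r⌉₊ := Nat.ceil_pos.2 (by positivity)
    have m1 := (div_le_iff₀' r0).1 (Nat.le_ceil ((k:ℝ) / r))
    have m2 := (Nat.ceil_lt_add_one (show 0 ≤ (k:ℝ) / r by positivity)).le
    rw [div_add_one r0.ne', le_div_iff₀' r0] at m2
    have h2 := mean_ge B (by omega) r0 m1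
      (by exact_mod_cast (div_pos_iff_of_pos_right (by positivity)).1 ha) hrec
    generalize ⌈(k:ℝ) / r⌉₊ = m at *
    refine ⟨k * m, le_trans (by omega) (Nat.le_mul_of_pos_right k m0),
      ENNReal.ofReal_le_ofReal ?_⟩
    rw [le_div_iff₀ (Real.sqrt_pos.2 (by exact_mod_cast Nat.mul_pos (by omega) m0)),
      ← Real.sqrt_mul (by positivity)]
    refine le_trans (Real.sqrt_le_iff.2 ⟨by positivity, ?_⟩) h2
    have h3 := mul_le_mul_of_nonneg_left (show (r:ℝ) * m ≤ 25 / 24 * k by linarith) k0.le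
    push_cast
    linarith
  have h2 := le_limsup_of_frequently_le h1 (by isBoundedDefault)
  have e : (r : ℝ≥0∞) = 24 * (ENNReal.ofReal √(r / 6) / 2) ^ 2 := by
    rw [← ENNReal.ofReal_ofNat 2, ← ENNReal.ofReal_div_of_pos (by norm_num),
      ← ENNReal.ofReal_pow (by positivity), ← ENNReal.ofReal_ofNat 24,
      ← ENNReal.ofReal_mul (by norm_num), div_pow, Real.sq_sqrt (by positivity),
      ← ENNReal.ofReal_coe_nnreal]
    congr 1
    ring
  rw [e, cConst]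
  gcongr

end Pool.Agent.MP_cd0eb5_co.LB
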