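import Pool.Agent.MP_cd0eb5_co.LB.Pat

set_option autoImplicit false

namespace Pool.Agent.MP_cd0eb5_co.LB

open Finset Equiv

lemma lin_le (t : ℝ) : 1 + 15 * t ≤ 5 / 2 * Real.exp (4 * Real.log 2 * t) := by
  have l1 := Real.log_two_gt_d9
  have l2 := Real.log_two_lt_d9
  have e2 : Real.exp (Real.log 2) = 2 := Real.exp_log (by norm_num)
  rcases le_total t (2 / 5) with h | h
  · have h1 := Real.add_one_le_exp (4 * Real.log 2 * t - Real.log 2)
    rw [Real.exp_sub, e2, le_div_iff₀ (by norm_num)] at h1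
    have h2 := mul_le_mul_of_nonneg_right (show 20 * Real.log 2 - 15 ≤ 0 by linarith)
      (sub_nonneg.2 h)
    linarith
  · have h1 := Real.add_one_le_exp (4 * Real.log 2 * t - Real.log 2 - Real.log 2)
    rw [Real.exp_sub, Real.exp_sub, e2, le_div_iff₀ (by norm_num), le_div_iff₀ (by norm_num)] at h1
    have h2 := mul_nonneg (show 0 ≤ 40 * Real.log 2 - 15 by linarith) (sub_nonneg.2 h)
    linarith

lemma hoeff {Ω : Type} [Fintype Ω] [Nonempty Ω] (f : Ω → ℝ) (hf : ∀ a b, f a ≤ f b + 1) :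
    ∑ a, Real.exp (4 * Real.log 2 * f a) ≤ Fintype.card Ω * (5 / 2)
      * Real.exp (4 * Real.log 2 * ((∑ a, f a) / Fintype.card Ω)) := by
  obtain ⟨b, hb⟩ := Finite.exists_min f
  have hN : (0:ℝ) < Fintype.card Ω := by exact_mod_cast Fintype.card_pos
  have e16 : Real.exp (4 * Real.log 2) = 16 := by
    rw [show (4:ℝ) * Real.log 2 = (4:ℕ) * Real.log 2 by norm_num, Real.exp_nat_mul,
      Real.exp_log (by norm_num)]
    norm_num
  have h1 : ∀ a, Real.exp (4 * Real.log 2 * f a)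
      ≤ Real.exp (4 * Real.log 2 * f b) * (1 + 15 * (f a - f b)) := fun a => by
    have h2 := convexOn_exp.2 (Set.mem_univ 0) (Set.mem_univ (4 * Real.log 2))
      (show 0 ≤ 1 - (f a - f b) by linarith [hf a b]) (sub_nonneg.2 (hb a)) (by ring)
    simp only [smul_eq_mul, mul_zero, zero_add, Real.exp_zero, e16] at h2
    rw [show 4 * Real.log 2 * f a = 4 * Real.log 2 * f b + (f a - f b) * (4 * Real.log 2) by ring,
      Real.exp_add]
    exact mul_le_mul_of_nonneg_left (by linarith) (Real.exp_pos _).le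
  refine (sum_le_sum fun a _ => h1 a).trans ?_
  have h3 := mul_le_mul_of_nonneg_left (lin_le ((∑ a, f a) / Fintype.card Ω - f b))
    (mul_pos (Real.exp_pos (4 * Real.log 2 * f b)) hN).le
  rw [show 4 * Real.log 2 * ((∑ a, f a) / Fintype.card Ω) = 4 * Real.log 2 * f b
    + 4 * Real.log 2 * ((∑ a, f a) / Fintype.card Ω - f b) by ring, Real.exp_add, ← mul_sum]
  refine le_trans (le_of_eq ?_) (h3.trans_eq (by ring))
  simp only [sum_add_distrib, ← mul_sum, sum_sub_distrib, sum_const, card_univ, nsmul_eq_mul]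
  field_simp

lemma mcd {Ω : Type} [Fintype Ω] [Nonempty Ω] : ∀ (k : ℕ) (X : (Fin k → Ω) → ℝ),
    (∀ y r ω, X (Function.update y r ω) ≤ X y + 1) →
    ∑ y, Real.exp (4 * Real.log 2 * X y) ≤ (Fintype.card Ω * (5 / 2)) ^ k
      * Real.exp (4 * Real.log 2 * ((∑ y, X y) / (Fintype.card Ω : ℝ) ^ k)) := by
  have hN : (0:ℝ) < Fintype.card Ω := by exact_mod_cast Fintype.card_pos
  have cons : ∀ (k : ℕ) (F : (Fin (k + 1) → Ω) → ℝ),
      ∑ y, F y = ∑ z : Fin k → Ω, ∑ ω, F (Fin.cons ω z) := fun k F => by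
    rw [sum_comm, ← Fintype.sum_prod_type']
    exact (Fintype.sum_equiv (Fin.consEquiv fun _ => Ω) _ _ fun _ => rfl).symm
  intro k
  induction k with
  | zero => intro X _; simp
  | succ k ih =>
    intro X hX
    have h1 := ih (fun z => (∑ ω, X (Fin.cons ω z)) / Fintype.card Ω) fun z r ω => by
      rw [div_add_one hN.ne', div_le_div_iff_of_pos_right hN]
      have : ∀ a : Ω, X (Fin.cons a (Function.update z r ω)) ≤ X (Fin.cons a z) + 1 := fun a => by
        rw [Fin.cons_update]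
        exact hX _ _ _
      refine (sum_le_sum fun a _ => this a).trans_eq ?_
      simp [sum_add_distrib]
    rw [cons, cons k X]
    refine (sum_le_sum fun z _ => hoeff (fun ω => X (Fin.cons ω z)) fun a b => ?_).trans ?_
    · have := hX (Fin.cons b z) 0 a
      rwa [Fin.update_cons_zero] at this
    · rw [← mul_sum, pow_succ', mul_assoc _ (_ ^ k)]
      refine mul_le_mul_of_nonneg_left (h1.trans_eq ?_) (by positivity)
      rw [← sum_div, div_div, ← pow_succ']

/-- The indicator that a label occurs in a row. -/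
noncomputable def ind {k m : ℕ} (ω : Fin m → Fin k) (c : Fin k) : ℝ :=
  1 - ∏ i, if ω i = c then 0 else 1

lemma ind_eq {k m : ℕ} (ω : Fin m → Fin k) (c : Fin k) :
    ind ω c = if ∃ i, ω i = c then 1 else 0 := by
  unfold ind
  split_ifs with h
  · obtain ⟨i, hi⟩ := h
    exact sub_eq_self.2 (Finset.prod_eq_zero (mem_univ i) (if_pos hi))
  · push Not at h
    simp [h]

lemma sum_prod_fun {k m : ℕ} (g : Fin k → ℝ) :
    ∑ ω : Fin m → Fin k, ∏ i, g (ω i) = (∑ x, g x) ^ m := by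
  rw [← Fintype.piFinset_univ, ← prod_univ_sum (fun _ => univ) fun _ x => g x]
  simp

lemma sum_miss {k : ℕ} (c : Fin k) : ∑ x : Fin k, (if x = c then (0:ℝ) else 1) = k - 1 := by
  have : ∀ x : Fin k, (if x = c then (0:ℝ) else 1) = 1 - if x = c then 1 else 0 := fun x => by
    split_ifs <;> simp
  simp [this]

lemma sum_ind {k m : ℕ} (c : Fin k) :
    ∑ ω : Fin m → Fin k, ind ω c = (k:ℝ) ^ m - ((k:ℝ) - 1) ^ m := by
  unfold ind
  rw [sum_sub_distrib, sum_prod_fun (fun x => if x = c then 0 else 1), sum_miss]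
  simp

lemma sum_ind_ind {k m : ℕ} {c d : Fin k} (h : c ≠ d) :
    ∑ ω : Fin m → Fin k, ind ω c * ind ω d
      = (k:ℝ) ^ m - 2 * ((k:ℝ) - 1) ^ m + ((k:ℝ) - 2) ^ m := by
  have e : ∀ ω : Fin m → Fin k, ind ω c * ind ω d = ind ω c + ind ω d - 1
      + ∏ i, ((if ω i = c then (0:ℝ) else 1) * if ω i = d then 0 else 1) := fun ω => by
    rw [prod_mul_distrib]
    unfold ind
    ring
  have e2 : ∑ x : Fin k, ((if x = c then (0:ℝ) else 1) * if x = d then 0 else 1) = k - 2 := by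
    have : ∀ x : Fin k, ((if x = c then (0:ℝ) else 1) * if x = d then 0 else 1)
        = 1 - (if x = c then 1 else 0) - if x = d then 1 else 0 := fun x => by
      by_cases h1 : x = c
      · simp [h1, h]
      · by_cases h2 : x = d <;> simp [h1, h2, h.symm]
    simp only [this, sum_sub_distrib]
    simp
    ring
  simp only [e, sum_add_distrib, sum_sub_distrib, sum_ind]
  rw [sum_prod_fun (fun x => (if x = c then (0:ℝ) else 1) * if x = d then 0 else 1), e2]
  simp
  ring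

lemma pair_le {k m : ℕ} {r : ℝ} (hk : 2 ≤ k) (hr : 0 < r) (hm : (k:ℝ) ≤ r * m) (c d : Fin k) :
    (∑ ω : Fin m → Fin k, ind ω c * ind ω d) * (k:ℝ) ^ m
      ≤ ((k:ℝ) ^ m - ((k:ℝ) - 1) ^ m) ^ 2 * (1 + if d = c then r else 0) := by
  have k2 : (2:ℝ) ≤ k := by exact_mod_cast hk
  split_ifs with h
  · have e : ∀ ω : Fin m → Fin k, ind ω c * ind ω d = ind ω c := fun ω => by
      rw [h, ind_eq]
      split_ifs <;> simp
    simp only [e, sum_ind]
    have b1 : 1 + m * (1 / (k:ℝ)) ≤ (1 + 1 / (k:ℝ)) ^ m :=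
      one_add_mul_le_pow (le_trans (by norm_num) (by positivity : (0:ℝ) ≤ 1 / k)) m
    have b2 : (((k:ℝ) - 1) * (1 + 1 / k)) ^ m ≤ (k:ℝ) ^ m := by
      refine pow_le_pow_left₀ (mul_nonneg (by linarith) (by positivity)) ?_ m
      have : (0:ℝ) < 1 / k := by positivity
      have h3 : (k:ℝ) * (1 / k) = 1 := by field_simp
      linarith
    have v0 : 0 ≤ ((k:ℝ) - 1) ^ m := pow_nonneg (by linarith) m
    have b3 := mul_le_mul_of_nonneg_left b1 v0
    have b4 : 1 ≤ r * (m * (1 / (k:ℝ))) := by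
      rw [← mul_assoc, mul_one_div, le_div_iff₀ (by linarith)]
      linarith
    rw [mul_pow] at b2
    have t0 : 0 ≤ m * (1 / (k:ℝ)) := by positivity
    generalize m * (1 / (k:ℝ)) = t at *
    generalize ((k:ℝ) - 1) ^ m = v at *
    generalize (k:ℝ) ^ m = N at *
    have b5 := mul_le_mul_of_nonneg_left b4 v0
    have b6 := mul_le_mul_of_nonneg_left (show v * t ≤ N - v by linarith) hr.le
    have b7 := mul_le_mul_of_nonneg_left (show N ≤ (N - v) * (1 + r) by linarith)
      (show 0 ≤ N - v by linarith [mul_nonneg v0 t0])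
    linarith
  · rw [sum_ind_ind (Ne.symm h)]
    have b : (((k:ℝ) - 2) * k) ^ m ≤ (((k:ℝ) - 1) ^ 2) ^ m :=
      pow_le_pow_left₀ (mul_nonneg (by linarith) (by linarith)) (by linarith) m
    rw [mul_pow, ← pow_mul, mul_comm 2 m, pow_mul] at b
    linarith

lemma agree_le (B : Set AnyPerm) {k : ℕ} {r : ℝ} (hr : 0 < r)
    (hrec : ∀ j ≤ k, ((cl B j).card : ℝ) / r ^ j ≤ (cl B k).card / r ^ k) (σ : Perm (Fin k)) :
    ∑ τ ∈ cl B k, ∏ i, (1 + if τ i = σ i then r else 0) ≤ (cl B k).card * 2 ^ k := by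
  simp only [prod_one_add]
  rw [sum_comm]
  have h : ∀ T ∈ (univ : Finset (Fin k)).powerset,
      ∑ τ ∈ cl B k, ∏ i ∈ T, (if τ i = σ i then r else 0) ≤ (cl B k).card := fun T _ => by
    have hT : T.card ≤ k := by simpa using card_le_univ T
    have e : ∀ τ : Perm (Fin k), ∏ i ∈ T, (if τ i = σ i then r else 0)
        = if ∀ i ∈ T, τ i = σ i then r ^ T.card else 0 := fun τ => by
      by_cases h : ∀ i ∈ T, τ i = σ i
      · rw [if_pos h, prod_congr rfl fun i hi => if_pos (h i hi), prod_const]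
      · rw [if_neg h]
        push Not at h
        obtain ⟨i, hi, h⟩ := h
        exact Finset.prod_eq_zero hi (if_neg h)
    simp only [e]
    rw [← sum_filter, sum_const, nsmul_eq_mul]
    have h1 : (((cl B k).filter fun τ => ∀ i ∈ T, τ i = σ i).card : ℝ)
      ≤ (cl B (k - T.card)).card := by exact_mod_cast spread B T σ
    have h2 := hrec (k - T.card) (Nat.sub_le _ _)
    rw [div_le_div_iff₀ (by positivity) (by positivity)] at h2
    refine (mul_le_mul_of_nonneg_right h1 (by positivity)).trans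
      (le_of_mul_le_mul_right (le_of_eq_of_le ?_ h2) (by positivity))
    rw [mul_assoc, ← pow_add, Nat.add_sub_cancel' hT]
  refine (sum_le_sum h).trans_eq ?_
  simp [mul_comm]

open Classical in
lemma many (B : Set AnyPerm) {k m : ℕ} {r : ℝ} (hk : 2 ≤ k) (hr : 0 < r) (hm : (k:ℝ) ≤ r * m)
    (ha : 0 < (cl B k).card)
    (hrec : ∀ j ≤ k, ((cl B j).card : ℝ) / r ^ j ≤ (cl B k).card / r ^ k) :
    ((k:ℝ) ^ m) ^ k ≤ ((univ.filter fun y : Fin k → Fin m → Fin k => k ≤ best B y).card : ℝ)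
      * 2 ^ k := by
  have k2 : (2:ℝ) ≤ k := by exact_mod_cast hk
  have m0 : m ≠ 0 := by
    rintro rfl
    simp only [Nat.cast_zero, mul_zero] at hm
    linarith
  have u0 : 0 < (k:ℝ) ^ m - ((k:ℝ) - 1) ^ m :=
    sub_pos.2 (pow_lt_pow_left₀ (by linarith) (by linarith) m0)
  have a0 : (0:ℝ) < (cl B k).card := by exact_mod_cast ha
  have pf : ∀ F : Fin k → (Fin m → Fin k) → ℝ,
      ∑ y : Fin k → Fin m → Fin k, ∏ i, F i (y i) = ∏ i, ∑ ω, F i ω := fun F => by
    rw [prod_univ_sum, Fintype.piFinset_univ]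
  let Z : (Fin k → Fin m → Fin k) → ℝ := fun y => ∑ σ ∈ cl B k, ∏ i, ind (y i) (σ i)
  let S := univ.filter fun y : Fin k → Fin m → Fin k => k ≤ best B y
  have z1 : ∑ y ∈ S, Z y = (cl B k).card * ((k:ℝ) ^ m - ((k:ℝ) - 1) ^ m) ^ k := by
    rw [sum_subset (subset_univ S), sum_comm]
    · simp only [fun σ : Perm (Fin k) => pf fun i ω => ind ω (σ i), sum_ind]
      simp
    · intro y _ hy
      refine sum_eq_zero fun σ hσ => ?_
      by_contra hc
      refine hy (mem_filter.2 ⟨mem_univ _, best_full hσ fun i => ?_⟩)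
      by_contra h2
      exact hc (Finset.prod_eq_zero (mem_univ i) (by rw [ind_eq, if_neg h2]))
  have z2 : (∑ y, Z y ^ 2) * ((k:ℝ) ^ m) ^ k
      ≤ ((cl B k).card * ((k:ℝ) ^ m - ((k:ℝ) - 1) ^ m) ^ k) ^ 2 * 2 ^ k := by
    calc (∑ y, Z y ^ 2) * ((k:ℝ) ^ m) ^ k
        = ∑ σ ∈ cl B k, ∑ τ ∈ cl B k,
            ∏ i, ((∑ ω : Fin m → Fin k, ind ω (σ i) * ind ω (τ i)) * (k:ℝ) ^ m) := by
          simp only [Z, sq, sum_mul_sum, ← prod_mul_distrib]
          rw [sum_comm, sum_mul]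
          refine sum_congr rfl fun σ _ => ?_
          rw [sum_comm, sum_mul]
          refine sum_congr rfl fun τ _ => ?_
          rw [pf fun i ω => ind ω (σ i) * ind ω (τ i), prod_mul_distrib]
          simp
      _ ≤ ∑ σ ∈ cl B k, ∑ τ ∈ cl B k,
            ∏ i, (((k:ℝ) ^ m - ((k:ℝ) - 1) ^ m) ^ 2 * (1 + if τ i = σ i then r else 0)) := by
          refine sum_le_sum fun σ _ => sum_le_sum fun τ _ => prod_le_prod (fun i _ => ?_)
            fun i _ => pair_le hk hr hm _ _
          refine mul_nonneg (sum_nonneg fun ω _ => ?_) (by positivity)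
          rw [ind_eq, ind_eq]
          split_ifs <;> simp
      _ ≤ ∑ σ ∈ cl B k, (((k:ℝ) ^ m - ((k:ℝ) - 1) ^ m) ^ 2) ^ k * ((cl B k).card * 2 ^ k) := by
          refine sum_le_sum fun σ _ => ?_
          simp only [prod_mul_distrib, prod_const, card_univ, Fintype.card_fin, ← mul_sum]
          exact mul_le_mul_of_nonneg_left (agree_le B hr hrec σ) (by positivity)
      _ = _ := by
          rw [sum_const, nsmul_eq_mul]
          generalize (k:ℝ) ^ m - ((k:ℝ) - 1) ^ m = u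
          ring
  have z3 := sq_sum_le_card_mul_sum_sq (s := S) (f := Z)
  have z4 : ∑ y ∈ S, Z y ^ 2 ≤ ∑ y, Z y ^ 2 :=
    sum_le_sum_of_subset_of_nonneg (subset_univ S) fun _ _ _ => sq_nonneg _
  rw [z1] at z3
  have z5 := mul_le_mul_of_nonneg_right
    (z3.trans (mul_le_mul_of_nonneg_left z4 (Nat.cast_nonneg _)))
    (show 0 ≤ ((k:ℝ) ^ m) ^ k by positivity)
  have z6 := mul_le_mul_of_nonneg_left z2 (Nat.cast_nonneg (α := ℝ) S.card)
  refine le_of_mul_le_mul_left (a := ((cl B k).card * ((k:ℝ) ^ m - ((k:ℝ) - 1) ^ m) ^ k) ^ 2) ?_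
    (by positivity)
  linarith

end Pool.Agent.MP_cd0eb5_co.LB
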