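import Pool.Agent.MP_cd0eb5_co.Defs

set_option autoImplicit false

namespace Pool.Agent.MP_cd0eb5_co.LB

open Finset Equiv

/-- The pattern of a finite sequence. -/
noncomputable def pat {j : ℕ} {α : Type} [LinearOrder α] (f : Fin j → α) : Perm (Fin j) :=
  (Tuple.sort f).symm

lemma sort_sm {j : ℕ} {α : Type} [LinearOrder α] {f : Fin j → α} (hf : Function.Injective f) :
    StrictMono (f ∘ Tuple.sort f) :=
  (Tuple.monotone_sort f).strictMono_of_injective (hf.comp (Tuple.sort f).injective)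

lemma pat_lt {j : ℕ} {α : Type} [LinearOrder α] {f : Fin j → α} (hf : Function.Injective f)
    (a b : Fin j) : pat f a < pat f b ↔ f a < f b := by
  rw [← (sort_sm hf).lt_iff_lt]
  simp [pat]

open Classical in
/-- The members of length `k` of the class. -/
noncomputable def cl (B : Set AnyPerm) (k : ℕ) : Finset (Perm (Fin k)) :=
  univ.filter fun σ => (⟨k, σ⟩ : AnyPerm) ∈ Av B

lemma mem_cl {B : Set AnyPerm} {k : ℕ} {σ : Perm (Fin k)} :
    σ ∈ cl B k ↔ (⟨k, σ⟩ : AnyPerm) ∈ Av B := by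
  simp [cl]

lemma count_eq (B : Set AnyPerm) (k : ℕ) : countOfLength (Av B) k = (cl B k).card := by
  rw [countOfLength, ← Set.ncard_coe_finset]
  congr 1
  ext σ
  simp [mem_cl]

lemma pat_mem {B : Set AnyPerm} {k j : ℕ} {σ : Perm (Fin k)} (h : σ ∈ cl B k) {e : Fin j → Fin k}
    (he : StrictMono e) : pat (σ ∘ e) ∈ cl B j := by
  rw [mem_cl] at h ⊢
  rintro β hβ ⟨d, hd, h2⟩
  exact h β hβ ⟨e ∘ d, he.comp hd, fun a b =>
    (h2 a b).trans (pat_lt (σ.injective.comp he.injective) _ _)⟩

lemma spread (B : Set AnyPerm) {k : ℕ} (T : Finset (Fin k)) (σ₀ : Perm (Fin k)) :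
    ((cl B k).filter fun σ => ∀ r ∈ T, σ r = σ₀ r).card ≤ (cl B (k - T.card)).card := by
  have hc : Tᶜ.card = k - T.card := by rw [card_compl, Fintype.card_fin]
  let e := Tᶜ.orderEmbOfFin hc
  have he : Set.range e = (↑T : Set (Fin k))ᶜ := by
    rw [range_orderEmbOfFin, coe_compl]
  have rg : ∀ σ : Perm (Fin k), (∀ r ∈ T, σ r = σ₀ r) → ∀ s : Perm (Fin (k - T.card)),
      Set.range ((σ ∘ e) ∘ s) = (σ₀ '' (↑T : Set (Fin k)))ᶜ := fun σ h s => by
    rw [s.surjective.range_comp, Set.range_comp, he, Set.image_compl_eq σ.bijective,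
      Set.image_congr h]
  refine card_le_card_of_injOn (fun σ => pat (σ ∘ e))
    (fun σ hσ => pat_mem (mem_filter.1 hσ).1 e.strictMono) fun σ hσ τ hτ h => ?_
  have h1 := (mem_filter.1 hσ).2
  have h2 := (mem_filter.1 hτ).2
  have h3 : Tuple.sort (σ ∘ e) = Tuple.sort (τ ∘ e) := Equiv.symm_bijective.injective h
  have h4 := (StrictMono.range_inj (sort_sm (σ.injective.comp e.injective))
    (sort_sm (τ.injective.comp e.injective))).1 ((rg σ h1 _).trans (rg τ h2 _).symm)
  rw [← h3] at h4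
  ext1 r
  by_cases hr : r ∈ T
  · rw [h1 r hr, h2 r hr]
  · obtain ⟨a, rfl⟩ : r ∈ Set.range e := by rw [he]; exact hr
    obtain ⟨b, rfl⟩ := (Tuple.sort (σ ∘ e)).surjective a
    exact congrFun h4 b

open Classical in
/-- The number of rows in which the label prescribed by `σ` occurs. -/
noncomputable def hits {k m : ℕ} (y : Fin k → Fin m → Fin k) (σ : Perm (Fin k)) : ℕ :=
  (univ.filter fun r => ∃ i, y r i = σ r).card

/-- The best number of hit rows over the class. -/
noncomputable def best (B : Set AnyPerm) {k m : ℕ} (y : Fin k → Fin m → Fin k) : ℕ :=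
  (cl B k).sup (hits y)

/-- A labelling of the positions, read row by row. -/
def rows (k m : ℕ) : (Fin (k * m) → Fin k) ≃ (Fin k → Fin m → Fin k) :=
  (Equiv.arrowCongr finProdFinEquiv.symm (Equiv.refl _)).trans (Equiv.curry _ _ _)

lemma best_le (B : Set AnyPerm) {k m : ℕ} (h : Fin (k * m) → Fin k) (hh : Monotone h)
    (π : Perm (Fin (k * m))) : best B (rows k m (h ∘ π)) ≤ longestSubseq (Av B) π := by
  classical
  refine Finset.sup_le fun σ hσ => ?_
  let R := univ.filter fun r => ∃ i, rows k m (h ∘ π) r i = σ r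
  let e := R.orderEmbOfFin rfl
  have hR : ∀ a, ∃ i, h (π (finProdFinEquiv (e a, i))) = σ (e a) := fun a =>
    (mem_filter.1 (R.orderEmbOfFin_mem rfl a)).2
  choose i hi using hR
  show R.card ≤ _
  refine le_csSup ⟨k * m, ?_⟩ ⟨pat (σ ∘ e), mem_cl.1 (pat_mem hσ e.strictMono),
    fun a => finProdFinEquiv (e a, i a), fun a b hab => ?_, fun a b => ?_⟩
  · rintro j ⟨τ, _, d, hd, _⟩
    simpa using Fintype.card_le_of_injective d hd.injective
  · have h1 : (e a : ℕ) + 1 ≤ e b := e.strictMono hab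
    have h2 := Nat.mul_le_mul_left m h1
    have h3 := (i a).2
    rw [Fin.lt_def]
    simp only [finProdFinEquiv_apply_val]
    rw [mul_add_one] at h2
    omega
  · rw [pat_lt (σ.injective.comp e.injective), Function.comp, Function.comp, ← hi, ← hi]
    refine ⟨fun h1 => hh.reflect_lt h1, fun h1 => lt_of_le_of_ne (hh h1.le) fun h2 => ?_⟩
    rw [hi, hi] at h2
    rw [e.injective (σ.injective h2)] at h1
    exact lt_irrefl _ h1

lemma sum_best_le (B : Set AnyPerm) (k m : ℕ) :
    (k * m).factorial * ∑ y : Fin k → Fin m → Fin k, best B y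
      ≤ k ^ (k * m) * ∑ π : Perm (Fin (k * m)), longestSubseq (Av B) π := by
  calc (k * m).factorial * ∑ y : Fin k → Fin m → Fin k, best B y
      = ∑ π : Perm (Fin (k * m)), ∑ Y : Fin (k * m) → Fin k, best B (rows k m (Y ∘ π)) := by
        have : ∀ π : Perm (Fin (k * m)), ∑ Y : Fin (k * m) → Fin k, best B (rows k m (Y ∘ π))
            = ∑ y : Fin k → Fin m → Fin k, best B y := fun π =>
          Fintype.sum_equiv ((Equiv.arrowCongr π.symm (Equiv.refl _)).trans (rows k m)) _ _
            fun Y => rfl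
        simp only [this, sum_const, card_univ, Fintype.card_perm, Fintype.card_fin, smul_eq_mul]
    _ = ∑ Y : Fin (k * m) → Fin k, ∑ π : Perm (Fin (k * m)),
          best B (rows k m ((Y ∘ Tuple.sort Y) ∘ π)) := by
        rw [sum_comm]
        exact sum_congr rfl fun Y _ =>
          (Fintype.sum_equiv (Equiv.mulLeft (Tuple.sort Y)) _ _ fun π => rfl).symm
    _ ≤ ∑ Y : Fin (k * m) → Fin k, ∑ π : Perm (Fin (k * m)), longestSubseq (Av B) π :=
        sum_le_sum fun Y _ => sum_le_sum fun π _ => best_le B _ (Tuple.monotone_sort Y) π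
    _ = _ := by simp

lemma best_lip (B : Set AnyPerm) {k m : ℕ} (y : Fin k → Fin m → Fin k) (r : Fin k)
    (ω : Fin m → Fin k) : best B (Function.update y r ω) ≤ best B y + 1 := by
  classical
  refine Finset.sup_le fun σ hσ => le_trans ?_ (Nat.add_le_add_right (le_sup (f := hits y) hσ) 1)
  refine le_trans (card_le_card fun t ht => ?_) (card_insert_le r _)
  by_cases h : t = r
  · simp [h]
  · simpa [h] using ht

lemma best_full {B : Set AnyPerm} {k m : ℕ} {y : Fin k → Fin m → Fin k} {σ : Perm (Fin k)}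
    (hσ : σ ∈ cl B k) (h : ∀ r, ∃ i, y r i = σ r) : k ≤ best B y := by
  refine le_trans ?_ (le_sup (f := hits y) hσ)
  simp [hits, h]

end Pool.Agent.MP_cd0eb5_co.LB
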